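import Pool.Agent.helper53.AU.SpecG3

/-!
# Project au, module C4: primitivity in case (c) (in fact for every member of LL)
-/

namespace Pool.Agent.helper53.AU

open scoped Classical

/-- Members of LL with a dihedral witness are primitive. -/
theorem C4_prim (hPLL : PLL_stmt) (hP1 : P1_stmt) (hP4 : P4_stmt) (hP6 : P6_stmt) (hAB : AB_stmt)
    (L Ω : Type) [Group L] [MulAction L Ω] (A : Subgroup L) (t : L) (hLL : LL L Ω A)
    (hdih : DihW A t) : Prim L Ω := by
  have := hLL.finL
  have := hLL.finΩ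
  have := hLL.faithful
  have := hLL.trans
  have := hLL.simple
  have hPL := hPLL L Ω A hLL
  obtain ⟨⟨τ, hτA, hτ⟩, -⟩ := hP1 L Ω A hPL
  obtain ⟨-, htA, hDmem, hreg, -⟩ := hP6 L Ω A hPL τ t hτA hτ hdih
  obtain ⟨ν, -, -, -, -, hconj⟩ := hP4 L Ω A hPL
  have hsub := (hAB L A hLL.cyc).2.2.2.2.2.2.2.2.2
  have htt : t * t = 1 := hdih.1
  have htinv : t⁻¹ = t := inv_eq_of_mul_eq_one_left htt
  -- elements of `D` normalise `A`
  have hnorm : ∀ d ∈ A ⊔ Subgroup.zpowers t, ∀ a ∈ A, d * a * d⁻¹ ∈ A := by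
    intro d hd a ha
    rcases (hDmem d).1 hd with h1 | h1
    · exact A.mul_mem (A.mul_mem h1 ha) (A.inv_mem h1)
    · have h2 : d * a * d⁻¹ = (d * t) * (t * a * t⁻¹) * (d * t)⁻¹ := by
        rw [mul_inv_rev, htinv]
        have : t * t = 1 := htt
        calc d * a * d⁻¹ = d * (t * t) * a * (t * t) * d⁻¹ := by rw [this]; simp
          _ = _ := by group
      rw [h2]
      exact A.mul_mem (A.mul_mem h1 (htA a ha)) (A.inv_mem h1)
  -- product of two elements outside `A`
  have hprod : ∀ d ∈ A ⊔ Subgroup.zpowers t, ∀ e ∈ A ⊔ Subgroup.zpowers t, d ∉ A → e ∉ A →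
      d * e ∈ A := by
    intro d hd e he hdA heA
    have h1 := ((hDmem d).1 hd).resolve_left hdA
    have h2 := ((hDmem e).1 he).resolve_left heA
    have h3 : d * e = (d * t) * (t * (e * t) * t⁻¹) := by
      rw [htinv]
      calc d * e = d * (t * t) * e * (t * t) := by rw [htt]; simp
        _ = _ := by group
    rw [h3]
    exact A.mul_mem h1 (htA _ h2)
  intro r hr
  by_cases hbot : r = ⊥
  · exact Or.inl hbot
  right
  have hex : ∃ α β : Ω, r α β ∧ α ≠ β := by
    by_contra hcon
    push Not at hcon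
    apply hbot
    ext x y
    exact ⟨fun hxy => hcon x y hxy, fun hxy => by
      have hxy' : x = y := hxy
      rw [hxy']⟩
  obtain ⟨α, β, hαβ, hne⟩ := hex
  obtain ⟨⟨d, hdD⟩, hd, -⟩ := hreg α β
  have hdβ : d • α = β := hd
  have hdα : r α (d • α) := by rw [hdβ]; exact hαβ
  have hd1 : d ≠ 1 := by
    rintro rfl
    rw [one_smul] at hdβ
    exact hne hdβ
  have huniq : ∀ x ∈ A ⊔ Subgroup.zpowers t, ∀ y ∈ A ⊔ Subgroup.zpowers t, x • α = y • α → x = y := by
    intro x hx y hy hxy
    obtain ⟨u, -, hu⟩ := hreg α (y • α)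
    have h1 := hu ⟨x, hx⟩ hxy
    have h2 := hu ⟨y, hy⟩ rfl
    exact congrArg Subtype.val (h1.trans h2.symm)
  have hblock : ∀ x y : L, r α (x • α) → r α (y • α) → r α ((x * y) • α) := by
    intro x y hx hy
    have h1 := hr x _ _ hy
    rw [← mul_smul] at h1
    exact r.trans hx h1
  by_cases hB : ∃ b ∈ A, b ≠ 1 ∧ r α (b • α)
  · obtain ⟨b, hbA, hb1, hbr⟩ := hB
    let B : Subgroup L :=
      { carrier := {x | x ∈ A ∧ r α (x • α)}
        mul_mem' := fun {x y} hx hy => ⟨A.mul_mem hx.1 hy.1, hblock x y hx.2 hy.2⟩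
        one_mem' := ⟨A.one_mem, by rw [one_smul]⟩
        inv_mem' := fun {x} hx => ⟨A.inv_mem hx.1, by
          have h1 := hr x⁻¹ _ _ hx.2
          rw [inv_smul_smul] at h1
          exact r.symm h1⟩ }
    let N : Subgroup L :=
      { carrier := {x | ∀ γ, r γ (x • γ)}
        mul_mem' := fun {x y} hx hy γ => by
          have h1 := hx (y • γ)
          rw [← mul_smul] at h1
          exact r.trans (hy γ) h1
        one_mem' := fun γ => by rw [one_smul]
        inv_mem' := fun {x} hx γ => by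
          have h1 := hx (x⁻¹ • γ)
          rw [smul_inv_smul] at h1
          exact r.symm h1 }
    have hbN : b ∈ N := by
      intro γ
      obtain ⟨⟨e, heD⟩, he, -⟩ := hreg α γ
      have heγ : e • α = γ := he
      have h1 : e⁻¹ * b * e⁻¹⁻¹ ∈ B :=
        hsub B (fun x hx => hx.1) e⁻¹ (hnorm e⁻¹ ((A ⊔ Subgroup.zpowers t).inv_mem heD)) b ⟨hbA, hbr⟩
      have h2 := hr e _ _ h1.2
      rw [← heγ]
      have h3 : e • ((e⁻¹ * b * e⁻¹⁻¹) • α) = b • e • α := by
        rw [← mul_smul, ← mul_smul]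
        congr 1
        group
      rw [h3] at h2
      exact h2
    have hNn : N.Normal := by
      refine ⟨fun x hx g γ => ?_⟩
      have h1 := hr g _ _ (hx (g⁻¹ • γ))
      rw [smul_inv_smul, ← mul_smul, ← mul_smul] at h1
      exact h1
    have hNtop : N = ⊤ := by
      rcases hNn.eq_bot_or_eq_top with h1 | h1
      · exfalso
        rw [h1, Subgroup.mem_bot] at hbN
        exact hb1 hbN
      · exact h1
    ext x y
    refine ⟨fun _ => trivial, fun _ => ?_⟩
    obtain ⟨g, hg⟩ := MulAction.exists_smul_eq L x y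
    have h1 : g ∈ N := by rw [hNtop]; trivial
    have h2 := h1 x
    rw [hg] at h2
    exact h2
  · push Not at hB
    exfalso
    have hdA : d ∉ A := fun h1 => (hB d h1 hd1) hdα
    have hdd : d * d = 1 := by
      by_contra h1
      exact hB (d * d) (hprod d hdD d hdD hdA hdA) h1 (hblock d d hdα hdα)
    obtain ⟨g, hgα, hgd⟩ := hconj α d τ ⟨hdd, hd1⟩ hτ
    have hx : r α (g • d • α) := by
      have h1 := hr g _ _ hdα
      rw [hgα] at h1
      exact h1
    obtain ⟨⟨e, heD⟩, he, -⟩ := hreg α (g • d • α)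
    have heα : e • α = g • d • α := he
    have her : r α (e • α) := by rw [heα]; exact hx
    have heA : e ∉ A := by
      intro h1
      have h2 : e = 1 := by
        by_contra h3
        exact hB e h1 h3 her
      rw [h2, one_smul] at heα
      have h3 : g • α = g • d • α := by rw [hgα]; exact heα
      have h4 : α = d • α := smul_left_cancel g h3
      exact hne (by rw [← hdβ]; exact h4)
    have hde : d * e = 1 := by
      by_contra h1
      exact hB (d * e) (hprod d hdD e heD hdA heA) h1 (hblock d e hdα her)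
    have hed : e = d := by
      have h1 : e = d⁻¹ := (inv_eq_of_mul_eq_one_right hde).symm
      rw [h1]
      exact inv_eq_of_mul_eq_one_left hdd
    have hτα : τ • α = d • α := by
      rw [← hgd, mul_smul, mul_smul]
      have h1 : g⁻¹ • α = α := by
        rw [inv_smul_eq_iff]
        exact hgα.symm
      rw [h1, ← heα, hed]
    have h1 := huniq τ (Subgroup.mem_sup_left hτA) d hdD hτα
    exact hdA (h1 ▸ hτA)

/-- C4. -/
theorem C4 (hPLL : PLL_stmt) (hP1 : P1_stmt) (hP4 : P4_stmt) (hP6 : P6_stmt) (hAB : AB_stmt) :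
    C4_stmt := by
  intro L Ω _ _ A E t ρ h
  exact C4_prim hPLL hP1 hP4 hP6 hAB L Ω A t h.LL h.dih

end Pool.Agent.helper53.AU
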