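import Pool.Agent.helper54.AU.M2e

/-!
# Project au, module M2: the dichotomy of (11.b)
-/

namespace Pool.Agent.helper53.AU

open scoped Classical

theorem M2 (hM1 : M1_stmt) (hCM : CM_stmt) (hTC : TC_stmt) (hTZ : TZ_stmt) (hTB : TB_stmt)
    (hDC : DC_stmt) (hMN : MN_stmt) (hOC : OC_stmt) (hAB : AB_stmt) : M2_stmt := by
  intro L Ω _ _ A t ρ hLL hd hρ hpr htρ
  have finL := hLL.finL
  have finΩ := hLL.finΩ
  obtain ⟨m1, m2, -, -, -, -⟩ := hM1 L Ω A t ρ hLL hd hρ hpr htρ _ rfl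
  obtain ⟨ab1, ab2, ab3, ab4, -, -, -, -, -, -⟩ := hAB L A hLL.cyc
  have hcommA : ∀ a ∈ A, ∀ b ∈ A, a * b = b * a := by
    intro a ha b hb
    have hcyc := hLL.cyc
    have := (IsCyclic.commGroup (α := A)).mul_comm ⟨a, ha⟩ ⟨b, hb⟩
    exact congrArg Subtype.val this
  have hρA : ρ ∈ A := ((ab1 ρ).mp hρ).1
  have hmem : ∀ x : L, x ∈ Subgroup.centralizer ({ρ} : Set L) ↔ x * ρ = ρ * x := by
    intro x
    rw [Subgroup.mem_centralizer_iff]
    constructor
    · intro h; exact (h ρ rfl).symm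
    · intro h y hy; rw [Set.mem_singleton_iff.mp hy]; exact h.symm
  set K := Subgroup.centralizer ({ρ} : Set L) with hK
  have hAK : A ≤ K := fun a ha => (hmem a).mpr (hcommA a ha ρ hρA)
  set B := A.subgroupOf K with hB
  have hBc : IsCyclic B := by
    have hcyc := hLL.cyc
    exact isCyclic_of_surjective (Subgroup.subgroupOfEquivOfLe hAK).symm
      (Subgroup.subgroupOfEquivOfLe hAK).symm.surjective
  have hBcard : Nat.card B = Nat.card A :=
    Nat.card_congr (Subgroup.subgroupOfEquivOfLe hAK).toEquiv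
  obtain ⟨cd1, cd2, -, -, -, -, -, -, -, -⟩ := hAB K B hBc
  have hodd : ∀ x : K, x ∈ oddPart B ↔ (x : L) ∈ oddPart A := by
    intro x
    rw [cd1, ab1, ← Subgroup.orderOf_coe]
    rfl
  have hΩpos : 0 < Nat.card Ω := by
    have := hLL.four
    rcases Nat.eq_zero_or_pos (Nat.card Ω) with h | h
    · exfalso
      apply hLL.three
      rw [h]; exact dvd_zero 3
    · exact h
  have hΩne : Nonempty Ω := (Nat.card_pos_iff.mp hΩpos).1
  obtain ⟨α⟩ := hΩne
  have hcardA := hLL.cardA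
  have hLcard : Nat.card L = Nat.card Ω * Nat.card (MulAction.stabilizer L α) := by
    have := hLL.trans
    have h1 := Subgroup.card_mul_index (MulAction.stabilizer L α)
    rw [MulAction.index_stabilizer_of_transitive] at h1
    rw [← h1, mul_comm]
  have hmemO : ∀ x : K, x ∈ oc K ↔ (x : L) ∈ (oc K).map K.subtype := by
    intro x
    constructor
    · intro h; exact ⟨x, h, rfl⟩
    · rintro ⟨y, hy, hyx⟩
      have : y = x := Subtype.ext hyx
      rwa [← this]
  have hcore := M2_core hCM hTC hTZ hTB hDC hMN hOC hAB B ⟨t, (hmem t).mpr htρ⟩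
    (Nat.card (MulAction.stabilizer L α)) hBc
    (by
      rw [hBcard]
      intro h
      apply hLL.three
      rw [← hcardA]
      exact Dvd.dvd.mul_left h 2)
    (by
      rw [hBcard]
      obtain ⟨j, hj⟩ := hLL.four
      exact ⟨j, by omega⟩)
    (by rw [hBcard, hcardA]; exact hLL.copr α)
    (by
      rw [hBcard, hcardA, ← hLcard]
      exact Subgroup.card_subgroup_dvd_card K)
    (by
      refine ⟨?_, ?_, ?_⟩
      · ext; exact hd.1
      · intro h; exact hd.2.1 (Subgroup.mem_subgroupOf.mp h)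
      · rintro a ha ⟨n, hn⟩
        ext
        exact hd.2.2 a (Subgroup.mem_subgroupOf.mp ha) ⟨n, congrArg Subtype.val hn⟩)
    (by
      rintro g a ⟨ha1, ha2⟩
      have h1 := m1 g ((hmem g).mp g.2) a ⟨(hmemO a).mp ha1, (hodd a).mp ha2⟩
      exact ⟨(hmemO _).mpr h1.1, (hodd _).mpr h1.2⟩)
    (by
      intro x hx hxa
      rw [hodd]
      apply m2 x ((hmemO x).mp hx)
      rintro a ⟨ha1, ha2⟩
      obtain ⟨y, hy, rfl⟩ := ha1
      have h1 := hxa y ⟨hy, (hodd y).mpr ha2⟩
      exact congrArg Subtype.val h1)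
  rcases hcore with h | ⟨E, hEn, hEs, hEe⟩
  · left
    intro g hg a ha
    have haK : a ∈ K := hAK ((ab1 a).mp ha).1
    have h1 := h ⟨g, (hmem g).mpr hg⟩ ⟨a, haK⟩ ((hodd ⟨a, haK⟩).mpr ha)
    exact (hodd _).mp h1
  · right
    have hequiv : E ≃* (E.map K.subtype) :=
      Subgroup.equivMapOfInjective E K.subtype K.subtype_injective
    refine ⟨E.map K.subtype, ?_, ?_, ⟨?_, ?_⟩, ?_⟩
    · rintro _ ⟨x, hx, rfl⟩
      exact (hmem _).mp x.2
    · rintro g hg _ ⟨x, hx, rfl⟩
      exact ⟨⟨g, (hmem g).mpr hg⟩ * x * ⟨g, (hmem g).mpr hg⟩⁻¹,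
        hEn.conj_mem x hx ⟨g, (hmem g).mpr hg⟩, rfl⟩
    · have := hEs.1
      have : Nontrivial (E.map K.subtype) := hequiv.symm.toEquiv.nontrivial
      exact IsSimpleGroup.isSimpleGroup_of_surjective hequiv.toMonoidHom hequiv.surjective
    · obtain ⟨a, b, hab⟩ := hEs.2
      refine ⟨hequiv a, hequiv b, fun h => hab ?_⟩
      rw [← map_mul, ← map_mul] at h
      exact hequiv.injective h
    · rw [← Nat.card_congr hequiv.toEquiv]
      exact hEe

end Pool.Agent.helper53.AU
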