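import Pool.Agent.helper53.AU.SpecG3

/-!
# Project au, module M2, part a: lemmas on normal 2-complements
-/

namespace Pool.Agent.helper53.AU

open scoped Classical

/-- odd order elements lie in a normal subgroup of 2-power index -/
theorem M2_odd_mem {H : Type} [Group H] [Finite H] (U : Subgroup H) [U.Normal] {n : ℕ}
    (hU : U.index = 2 ^ n) {x : H} (hx : Odd (orderOf x)) : x ∈ U := by
  have h1 : orderOf (x : H ⧸ U) ∣ orderOf x := orderOf_map_dvd (QuotientGroup.mk' U) x
  have h2 : orderOf (x : H ⧸ U) ∣ 2 ^ n := by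
    rw [← hU]; exact orderOf_dvd_natCard _
  have h3 : orderOf (x : H ⧸ U) = 1 :=
    Nat.eq_one_of_dvd_coprimes (Nat.Coprime.pow_right n (Nat.coprime_two_right.mpr hx)) h1 h2
  exact (QuotientGroup.eq_one_iff x).mp (orderOf_eq_one_iff.mp h3)

/-- the elements of a subgroup of odd order have odd order -/
theorem M2_odd_order {H : Type} [Group H] [Finite H] (U : Subgroup H)
    (hU : Odd (Nat.card U)) {x : H} (hx : x ∈ U) : Odd (orderOf x) := by
  have h1 : orderOf x ∣ Nat.card U := by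
    have := orderOf_dvd_natCard (⟨x, hx⟩ : U)
    rwa [Subgroup.orderOf_mk] at this
  exact Odd.of_dvd_nat hU h1

/-- normal 2-complement of a normal subgroup `W`: normal in the whole group -/
theorem M2_up {H : Type} [Group H] [Finite H] (W : Subgroup H) [W.Normal] (N : Subgroup W)
    [N.Normal] (hN : Odd (Nat.card N)) {c : ℕ} (hc : N.index = 2 ^ c) :
    (N.map W.subtype).Normal ∧ Odd (Nat.card (N.map W.subtype)) ∧
      (N.map W.subtype).index = W.index * 2 ^ c ∧
      (∀ x : H, x ∈ N.map W.subtype ↔ x ∈ W ∧ Odd (orderOf x)) := by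
  have hmem : ∀ x : H, x ∈ N.map W.subtype ↔ x ∈ W ∧ Odd (orderOf x) := by
    intro x
    constructor
    · rintro ⟨y, hy, rfl⟩
      refine ⟨y.2, ?_⟩
      have := M2_odd_order N hN hy
      rwa [Subgroup.coe_subtype, Subgroup.orderOf_coe]
    · rintro ⟨hx, ho⟩
      refine ⟨⟨x, hx⟩, ?_, rfl⟩
      apply M2_odd_mem N hc
      rwa [Subgroup.orderOf_mk]
  have hcard : Nat.card (N.map W.subtype) = Nat.card N :=
    Subgroup.card_map_of_injective W.subtype_injective
  refine ⟨⟨?_⟩, by rw [hcard]; exact hN, ?_, hmem⟩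
  · intro x hx g
    rw [hmem] at hx ⊢
    refine ⟨Subgroup.Normal.conj_mem inferInstance x hx.1 g, ?_⟩
    have : orderOf (g * x * g⁻¹) = orderOf x := by
      have := orderOf_injective (MulAut.conj g).toMonoidHom (MulAut.conj g).injective x
      simpa using this
    rw [this]; exact hx.2
  · have h1 := Subgroup.card_mul_index (N.map W.subtype)
    have h2 := Subgroup.card_mul_index W
    have h3 := Subgroup.card_mul_index N
    rw [hcard] at h1
    rw [hc] at h3
    have hpos : 0 < Nat.card N := Nat.card_pos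
    have : Nat.card N * (N.map W.subtype).index = Nat.card N * (W.index * 2 ^ c) := by
      rw [h1, ← h2, ← h3]; ring
    exact Nat.eq_of_mul_eq_mul_left hpos this

/-- a 2-power dividing `2 b k`, `k` odd, divides `2 b` -/
theorem M2_dvd {q b k : ℕ} (hq : ∃ n, q = 2 ^ n) (hk : Odd k) (h : q ∣ b * k) : q ∣ b := by
  obtain ⟨n, rfl⟩ := hq
  exact (Nat.Coprime.pow_left n (Nat.coprime_two_left.mpr hk)).dvd_of_dvd_mul_right h

/-- the normal closure of a normal 2-complement in a subgroup with cyclic Sylow 2-subgroup -/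
theorem M2_sub {H : Type} [Group H] [Finite H] (hTC : TC_stmt) (W C : Subgroup H) [W.Normal]
    (hC : IsCyclic C) (hCW : C ≤ W) (hp : IsPGroup 2 C) (k : ℕ) (hk : Odd k)
    (hW : Nat.card W ∣ Nat.card C * k) {b : ℕ} (hb : W.index = 2 ^ b) :
    ∃ U : Subgroup H, U.Normal ∧ Odd (Nat.card U) ∧ ∃ n : ℕ, U.index = 2 ^ n := by
  have hp' : IsPGroup 2 (C.subgroupOf W) := by
    intro x
    obtain ⟨n, hn⟩ := hp ⟨(x : W), x.2⟩
    refine ⟨n, ?_⟩
    have := congrArg (Subtype.val) hn
    ext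
    simpa using this
  obtain ⟨S, hS⟩ := hp'.exists_le_sylow
  have hcS : ∃ n, Nat.card S = 2 ^ n := IsPGroup.iff_card.mp S.2
  have hcC : Nat.card (C.subgroupOf W) = Nat.card C :=
    Nat.card_congr (Subgroup.subgroupOfEquivOfLe hCW).toEquiv
  have h1 : Nat.card S ∣ Nat.card C := by
    apply M2_dvd hcS hk
    exact (Subgroup.card_subgroup_dvd_card _).trans hW
  have h2 : Nat.card S ≤ Nat.card (C.subgroupOf W) := by
    rw [hcC]; exact Nat.le_of_dvd Nat.card_pos h1
  have h3 : C.subgroupOf W = (S : Subgroup W) :=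
    Subgroup.eq_of_le_of_card_ge hS h2
  have h4 : IsCyclic S := by
    have : IsCyclic (C.subgroupOf W) :=
      isCyclic_of_surjective (Subgroup.subgroupOfEquivOfLe hCW).symm
        (Subgroup.subgroupOfEquivOfLe hCW).symm.surjective
    rw [h3] at this
    exact this
  obtain ⟨N, hN1, hN2, hN3⟩ := hTC W S h4
  obtain ⟨c, hc⟩ := hcS
  rw [hc] at hN3
  obtain ⟨hu1, hu2, hu3, -⟩ := M2_up W N hN2 hN3
  exact ⟨_, hu1, hu2, b + c, by rw [hu3, hb, pow_add]⟩

/-- Comp implies the first alternative -/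
theorem M2_comp {H : Type} [Group H] [Finite H] (hOC : OC_stmt) (hAB : AB_stmt) (B : Subgroup H)
    (hBc : IsCyclic B)
    (hN : ∀ g : H, ∀ a ∈ oc H ⊓ oddPart B, g * a * g⁻¹ ∈ oc H ⊓ oddPart B)
    (hU : ∃ U : Subgroup H, U.Normal ∧ Odd (Nat.card U) ∧ ∃ n : ℕ, U.index = 2 ^ n) :
    ∀ g : H, ∀ a ∈ oddPart B, g * a * g⁻¹ ∈ oddPart B := by
  obtain ⟨U, hU1, hU2, n, hU3⟩ := hU
  obtain ⟨hab1, -⟩ := hAB H B hBc
  have h1 := (hOC H).2.2.1 U hU1 hU2
  intro g a ha
  have h2 : a ∈ U := M2_odd_mem U hU3 ((hab1 a).mp ha).2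
  exact (hN g a ⟨h1 h2, ha⟩).2

end Pool.Agent.helper53.AU
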