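import Pool.Agent.helper54.AU.M2a

/-!
# Project au, module M2, part b: an involution not centralising `A'`
-/

namespace Pool.Agent.helper53.AU

open scoped Classical

theorem M2_case1 {H : Type} [Group H] [Finite H] (hTC : TC_stmt) (hCM : CM_stmt)
    (A' C : Subgroup H) (hA' : IsCyclic A') (hN : ∀ g : H, ∀ a ∈ A', g * a * g⁻¹ ∈ A')
    (hC : IsCyclic C) (hp : IsPGroup 2 C) (hCA : ∀ c ∈ C, ∀ a ∈ A', c * a = a * c) (k : ℕ)
    (hk : Odd k) (hH : Nat.card H ∣ 2 * Nat.card C * k) (s : H) (hs : s * s = 1)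
    (hsA : ∃ a ∈ A', s * a ≠ a * s) :
    ∃ U : Subgroup H, U.Normal ∧ Odd (Nat.card U) ∧ ∃ n : ℕ, U.index = 2 ^ n := by
  have hmem : ∀ x : H, x ∈ Subgroup.centralizer (A' : Set H) ↔ ∀ a ∈ A', x * a = a * x := by
    intro x
    rw [Subgroup.mem_centralizer_iff]
    exact ⟨fun h a ha => (h a ha).symm, fun h a ha => (h a ha).symm⟩
  have hCn : (Subgroup.centralizer (A' : Set H)).Normal := by
    refine ⟨fun x hx g => ?_⟩
    rw [hmem] at hx ⊢
    intro a ha
    have h1 := hx (g⁻¹ * a * g) (by simpa using hN g⁻¹ a ha)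
    calc g * x * g⁻¹ * a = g * (x * (g⁻¹ * a * g)) * g⁻¹ := by group
      _ = g * ((g⁻¹ * a * g) * x) * g⁻¹ := by rw [h1]
      _ = a * (g * x * g⁻¹) := by group
  set Z := Subgroup.centralizer (A' : Set H) with hZ
  have hcomm : ∀ x y : H ⧸ Z, x * y = y * x := by
    intro x y
    induction x using QuotientGroup.induction_on with
    | H g =>
      induction y using QuotientGroup.induction_on with
      | H h =>
        rw [← QuotientGroup.mk_mul, ← QuotientGroup.mk_mul, QuotientGroup.eq]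
        have h1 := hCM H A' hA' h⁻¹ g⁻¹ (hN _) (hN _)
        rw [hmem]
        intro a ha
        have h2 := h1 a ha
        have h3 : (g * h)⁻¹ * (h * g) = h⁻¹ * g⁻¹ * h⁻¹⁻¹ * g⁻¹⁻¹ := by group
        rw [h3]
        exact h2
  let _ : CommGroup (H ⧸ Z) := { (inferInstance : Group (H ⧸ Z)) with mul_comm := hcomm }
  obtain ⟨a, m, hm, hq⟩ := Nat.exists_eq_two_pow_mul_odd (n := Nat.card (H ⧸ Z)) Nat.card_pos.ne'
  set f : H →* (H ⧸ Z) := (powMonoidHom m).comp (QuotientGroup.mk' Z) with hf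
  have hfx : ∀ x : H, f x = (x : H ⧸ Z) ^ m := fun x => rfl
  have hrange : IsPGroup 2 f.range := by
    rintro ⟨y, x, rfl⟩
    refine ⟨a, ?_⟩
    ext
    change (f x) ^ (2 ^ a) = 1
    rw [hfx, ← pow_mul, mul_comm, ← hq, pow_card_eq_one']
  obtain ⟨b, hb⟩ := IsPGroup.iff_card.mp hrange
  have hidx : f.ker.index = 2 ^ b := by
    rw [Subgroup.index_ker, hb]
  have hsW : s ∉ f.ker := by
    intro h
    rw [MonoidHom.mem_ker, hfx] at h
    obtain ⟨l, rfl⟩ := hm
    have h2 : (s : H ⧸ Z) ^ 2 = 1 := by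
      rw [pow_two, ← QuotientGroup.mk_mul, hs]; rfl
    rw [pow_add, pow_mul, h2, one_pow, one_mul, pow_one, QuotientGroup.eq_one_iff, hmem] at h
    obtain ⟨a, ha, hne⟩ := hsA
    exact hne (h a ha)
  have hb1 : b ≠ 0 := by
    rintro rfl
    rw [pow_zero, Subgroup.index_eq_one] at hidx
    exact hsW (hidx ▸ Subgroup.mem_top s)
  have hCW : C ≤ f.ker := by
    intro c hc
    rw [MonoidHom.mem_ker, hfx]
    have : (c : H ⧸ Z) = 1 := (QuotientGroup.eq_one_iff c).mpr ((hmem c).mpr (hCA c hc))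
    rw [this, one_pow]
  apply M2_sub hTC f.ker C hC hCW hp k hk ?_ hidx
  have h1 := Subgroup.card_mul_index f.ker
  rw [hidx] at h1
  obtain ⟨b', rfl⟩ := Nat.exists_eq_succ_of_ne_zero hb1
  have h2 : 2 * Nat.card f.ker ∣ 2 * (Nat.card C * k) := by
    have h3 : 2 * Nat.card f.ker ∣ Nat.card H := by
      rw [← h1, pow_succ]
      exact ⟨2 ^ b', by ring⟩
    rw [← mul_assoc]
    exact h3.trans hH
  exact Nat.dvd_of_mul_dvd_mul_left (by norm_num) h2

end Pool.Agent.helper53.AU
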