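import Pool.Agent.helper54.AU.M2b

/-!
# Project au, module M2, part c: transfer
-/

namespace Pool.Agent.helper53.AU

open scoped Classical

theorem M2_transfer {H : Type} [Group H] [Finite H] (hTZ : TZ_stmt) (B A' : Subgroup H)
    (hB : IsCyclic B) (hA'B : A' ≤ B) (hJA : ∀ x : H, IsInv x → ∀ a ∈ A', x * a = a * x) (s : ℕ)
    (hs : Nat.Coprime s (2 * Nat.card B)) (hH : Nat.card H ∣ 2 * Nat.card B * s) (z : H)
    (hz : (orderOf z).Prime) (hzo : Odd (orderOf z))
    (hzJ : z ∈ Subgroup.closure {x : H | IsInv x}) (hzA : z ∈ A') : False := by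
  have hcomm : ∀ a ∈ B, ∀ b ∈ B, a * b = b * a := by
    intro a ha b hb
    have := (IsCyclic.commGroup (α := B)).mul_comm ⟨a, ha⟩ ⟨b, hb⟩
    exact congrArg Subtype.val this
  have hmem : ∀ x : H, x ∈ Subgroup.centralizer (A' : Set H) ↔ ∀ a ∈ A', x * a = a * x := by
    intro x
    rw [Subgroup.mem_centralizer_iff]
    exact ⟨fun h a ha => (h a ha).symm, fun h a ha => (h a ha).symm⟩
  set Z := Subgroup.centralizer (A' : Set H) with hZ
  have hBZ : B ≤ Z := fun b hb => (hmem b).mpr fun a ha => hcomm b hb a (hA'B ha)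
  have hzZ : z ∈ Z := hBZ (hA'B hzA)
  -- center
  have hcen : (⟨z, hzZ⟩ : Z) ∈ Subgroup.center Z := by
    rw [Subgroup.mem_center_iff]
    rintro ⟨g, hg⟩
    ext
    exact (hmem g).mp hg z hzA
  -- commutator
  have hcom : (⟨z, hzZ⟩ : Z) ∈ commutator Z := by
    rw [← Abelianization.ker_of, MonoidHom.mem_ker]
    have h1 : Subgroup.closure {x : H | IsInv x} ≤
        (((powMonoidHom 2).comp (Abelianization.of (G := Z))).ker).map Z.subtype := by
      rw [Subgroup.closure_le]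
      intro x hx
      refine ⟨⟨x, (hmem x).mpr (hJA x hx)⟩, ?_, rfl⟩
      change (Abelianization.of (⟨x, _⟩ : Z)) ^ 2 = 1
      rw [← map_pow]
      have : (⟨x, (hmem x).mpr (hJA x hx)⟩ : Z) ^ 2 = 1 := by
        ext
        change x ^ 2 = 1
        rw [pow_two]; exact hx.1
      rw [this, map_one]
    obtain ⟨y, hy, hyz⟩ := h1 hzJ
    have hyz' : y = ⟨z, hzZ⟩ := by
      ext; exact hyz
    subst hyz'
    have h2 : (Abelianization.of (⟨z, hzZ⟩ : Z)) ^ 2 = 1 := hy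
    have h3 : orderOf (Abelianization.of (⟨z, hzZ⟩ : Z)) ∣ 2 := orderOf_dvd_of_pow_eq_one h2
    have h4 : orderOf (Abelianization.of (⟨z, hzZ⟩ : Z)) ∣ orderOf z := by
      have := orderOf_map_dvd (Abelianization.of (G := Z)) (⟨z, hzZ⟩ : Z)
      rwa [Subgroup.orderOf_mk] at this
    exact orderOf_eq_one_iff.mp (Nat.eq_one_of_dvd_coprimes (Nat.coprime_two_left.mpr hzo) h3 h4)
  -- Sylow
  haveI : Fact (orderOf z).Prime := ⟨hz⟩
  have hrB : orderOf z ∣ Nat.card B := by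
    have := orderOf_dvd_natCard (⟨z, hA'B hzA⟩ : B)
    rwa [Subgroup.orderOf_mk] at this
  have hz1 : IsPGroup (orderOf z) (Subgroup.zpowers (⟨z, hA'B hzA⟩ : B)) := by
    apply IsPGroup.of_card (n := 1)
    rw [Nat.card_zpowers, Subgroup.orderOf_mk, pow_one]
  obtain ⟨PB, hPB⟩ := hz1.exists_le_sylow
  have hQ : IsPGroup (orderOf z) ((PB : Subgroup B).map (Subgroup.inclusion hBZ)) :=
    PB.2.map _
  obtain ⟨R, hR⟩ := hQ.exists_le_sylow
  have hcQ : Nat.card ((PB : Subgroup B).map (Subgroup.inclusion hBZ)) = Nat.card PB :=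
    Subgroup.card_map_of_injective (Subgroup.inclusion_injective hBZ)
  obtain ⟨n, hn⟩ := IsPGroup.iff_card.mp R.2
  have hd1 : Nat.card R ∣ 2 * Nat.card B * s :=
    ((Subgroup.card_subgroup_dvd_card _).trans (Subgroup.card_subgroup_dvd_card Z)).trans hH
  have hd2 : Nat.card R ∣ Nat.card B := by
    rw [hn] at hd1 ⊢
    have c1 : Nat.Coprime (orderOf z) s :=
      (Nat.Coprime.coprime_dvd_right (hrB.trans (dvd_mul_left _ _)) hs).symm
    have c2 : Nat.Coprime (orderOf z) 2 := Nat.coprime_two_right.mpr hzo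
    have h5 := (Nat.Coprime.pow_left n c1).dvd_of_dvd_mul_right hd1
    exact (Nat.Coprime.pow_left n c2).dvd_of_dvd_mul_left h5
  have hd3 : Nat.card R ∣ Nat.card PB := by
    rw [hn] at hd2 ⊢
    exact PB.pow_dvd_card_of_pow_dvd_card hd2
  have hRQ : (PB : Subgroup B).map (Subgroup.inclusion hBZ) = (R : Subgroup Z) :=
    Subgroup.eq_of_le_of_card_ge hR (by rw [hcQ]; exact Nat.le_of_dvd Nat.card_pos hd3)
  have hzR : (⟨z, hzZ⟩ : Z) ∈ (R : Subgroup Z) := by
    rw [← hRQ]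
    exact ⟨⟨z, hA'B hzA⟩, hPB (Subgroup.mem_zpowers _), rfl⟩
  have hfin := hTZ Z (orderOf z) R ⟨z, hzZ⟩ hcen hcom hzR
  have hbot : ⁅(R : Subgroup Z), (R : Subgroup Z)⁆ = ⊥ := by
    rw [Subgroup.commutator_eq_bot_iff_le_centralizer, ← hRQ]
    rintro _ ⟨x, hx, rfl⟩
    rw [Subgroup.mem_centralizer_iff]
    rintro _ ⟨y, hy, rfl⟩
    ext
    exact hcomm _ y.2 _ x.2
  rw [hbot, Subgroup.mem_bot] at hfin
  have : z = 1 := congrArg Subtype.val hfin
  rw [this, orderOf_one] at hz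
  exact Nat.not_prime_one hz

end Pool.Agent.helper53.AU
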