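import Pool.Agent.helper54.AU.M2c

/-!
# Project au, module M2, part d: minimal normal subgroups of order 2 and 4
-/

namespace Pool.Agent.helper53.AU

open scoped Classical

/-- index two inside `T` -/
theorem M2_index {H : Type} [Group H] [Finite H] (C T : Subgroup H) (hCT : C ≤ T)
    (hT : Nat.card T = 2 * Nat.card C) : (C.subgroupOf T).index = 2 ∧
      ∀ x ∈ T, ∀ y ∈ T, x ∉ C → y ∉ C → x * y ∈ C := by
  have h1 : (C.subgroupOf T).index = 2 := by
    have h2 := Subgroup.card_mul_index (C.subgroupOf T)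
    have h3 : Nat.card (C.subgroupOf T) = Nat.card C :=
      Nat.card_congr (Subgroup.subgroupOfEquivOfLe hCT).toEquiv
    rw [h3, hT, mul_comm 2] at h2
    exact Nat.eq_of_mul_eq_mul_left Nat.card_pos h2
  refine ⟨h1, fun x hx y hy hxC hyC => ?_⟩
  have h4 := (Subgroup.mul_mem_iff_of_index_two h1 (a := ⟨x, hx⟩) (b := ⟨y, hy⟩)).mpr
    ⟨fun h => absurd (Subgroup.mem_subgroupOf.mp h) hxC,
      fun h => absurd (Subgroup.mem_subgroupOf.mp h) hyC⟩
  exact Subgroup.mem_subgroupOf.mp h4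

/-- a cyclic group of exponent 2 has order at most 2 -/
theorem M2_exp {H : Type} [Group H] [Finite H] (C : Subgroup H) (hC : IsCyclic C)
    (h : ∀ c ∈ C, c * c = 1) : Nat.card C ∣ 2 := by
  rw [← IsCyclic.exponent_eq_card]
  apply Monoid.exponent_dvd_of_forall_pow_eq_one
  intro c
  ext
  change (c : H) ^ 2 = 1
  rw [pow_two]
  exact h c c.2

theorem M2_two {H : Type} [Group H] [Finite H] (hDC : DC_stmt) (C E : Subgroup H) (T : Sylow 2 H)
    (t τ : H) (hC : IsCyclic C) {n : ℕ} (hCn : Nat.card C = 2 ^ n) (hCT : C ≤ (T : Subgroup H))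
    (htT : t ∈ (T : Subgroup H)) (hET : E ≤ (T : Subgroup H))
    (hT : Nat.card (T : Subgroup H) = 2 * Nat.card C)
    (ht : t * t = 1) (htC : t ∉ C) (hinv : ∀ c ∈ C, t * c * t⁻¹ = c⁻¹) (hτ : τ ∈ C)
    (hτi : IsInv τ) (hE : E.Normal) (hE2 : Nat.card E = 2) :
    ∃ U : Subgroup H, U.Normal ∧ Odd (Nat.card U) ∧ ∃ n : ℕ, U.index = 2 ^ n := by
  have hcomm : ∀ a ∈ C, ∀ b ∈ C, a * b = b * a := by
    intro a ha b hb
    have := (IsCyclic.commGroup (α := C)).mul_comm ⟨a, ha⟩ ⟨b, hb⟩
    exact congrArg Subtype.val this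
  obtain ⟨e, he, he1⟩ : ∃ e ∈ E, e ≠ 1 := by
    by_contra hcon
    push Not at hcon
    have : E = ⊥ := (Subgroup.eq_bot_iff_forall E).mpr hcon
    rw [this, Subgroup.card_bot] at hE2
    omega
  have hall : ∀ x ∈ E, x = 1 ∨ x = e := by
    intro x hx
    have h1 := (Nat.card_eq_two_iff' (1 : E)).mp hE2
    obtain ⟨y, hy, hy'⟩ := h1
    by_cases hx1 : x = 1
    · exact Or.inl hx1
    · right
      have h2 := hy' ⟨x, hx⟩ (fun h => hx1 (congrArg Subtype.val h))
      have h3 := hy' ⟨e, he⟩ (fun h => he1 (congrArg Subtype.val h))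
      exact congrArg Subtype.val (h2.trans h3.symm)
  have hee : e * e = 1 := by
    have h1 : (⟨e, he⟩ : E) ^ Nat.card E = 1 := pow_card_eq_one'
    rw [hE2, pow_two] at h1
    exact congrArg Subtype.val h1
  have hcen : ∀ h : H, h * e = e * h := by
    intro h
    have h1 := hE.conj_mem e he h
    rcases hall _ h1 with h2 | h2
    · exfalso
      apply he1
      have h3 : h * e = h := by
        rw [mul_inv_eq_one] at h2
        exact h2
      simpa using h3
    · rw [mul_inv_eq_iff_eq_mul] at h2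
      exact h2
  have hidx := T.not_dvd_index
  have hcard := Subgroup.card_mul_index (T : Subgroup H)
  rw [hT] at hcard
  have hodd : Odd (T : Subgroup H).index := by
    rw [← Nat.not_even_iff_odd, even_iff_two_dvd]; exact hidx
  by_cases heC : e ∈ C
  · obtain ⟨U, hU1, hU2, hU3⟩ := hDC H C t e _ n hC hCn heC ⟨hee, he1⟩ hcen ht htC hinv
      hcard.symm hodd
    exact ⟨U, hU1, hU2, n + 1, by rw [hU3, hCn, pow_succ, mul_comm]⟩
  · have hetC : e * t ∈ C := (M2_index C T hCT hT).2 e (hET he) t htT heC htC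
    have hexp : ∀ c ∈ C, c * c = 1 := by
      intro c hc
      have h1 := hcomm _ hetC c hc
      have h2 : e * (t * c) = e * (c * t) := by
        rw [← mul_assoc, h1, ← mul_assoc, hcen c, mul_assoc]
      have h3 := mul_left_cancel h2
      have h4 := hinv c hc
      rw [h3, mul_assoc, mul_inv_cancel, mul_one] at h4
      rw [← inv_eq_iff_mul_eq_one]
      exact h4.symm
    have hC2 : Nat.card C = 2 := by
      rcases (Nat.dvd_prime Nat.prime_two).mp (M2_exp C hC hexp) with h | h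
      · exfalso
        have := (Subgroup.card_eq_one (H := C)).mp h
        rw [this, Subgroup.mem_bot] at hτ
        exact hτi.2 hτ
      · exact h
    have hz : ∀ c ∈ Subgroup.zpowers e, c = 1 ∨ c = e := fun c hc =>
      hall c ((Subgroup.zpowers_le.mpr he) hc)
    have hord : orderOf e = 2 := by
      rw [orderOf_eq_prime_iff]
      exact ⟨by rw [pow_two]; exact hee, he1⟩
    have hzc : Nat.card (Subgroup.zpowers e) = 2 := by rw [Nat.card_zpowers, hord]
    have hτz : τ ∉ Subgroup.zpowers e := by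
      intro h
      rcases hz τ h with h1 | h1
      · exact hτi.2 h1
      · exact heC (h1 ▸ hτ)
    have hinv' : ∀ c ∈ Subgroup.zpowers e, τ * c * τ⁻¹ = c⁻¹ := by
      intro c hc
      rcases hz c hc with h1 | h1
      · rw [h1]; simp
      · rw [h1, hcen τ, mul_assoc, mul_inv_cancel, mul_one]
        exact (inv_eq_of_mul_eq_one_right hee).symm
    obtain ⟨U, hU1, hU2, hU3⟩ := hDC H (Subgroup.zpowers e) τ e _ 1 inferInstance
      (by rw [hzc, pow_one]) (Subgroup.mem_zpowers e) ⟨hee, he1⟩ hcen hτi.1 hτz hinv'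
      (by rw [hzc]; rw [hC2] at hcard; exact hcard.symm) hodd
    exact ⟨U, hU1, hU2, 2, by rw [hU3, hzc]; norm_num⟩

theorem M2_four {H : Type} [Group H] [Finite H] (hTB : TB_stmt) (hOC : OC_stmt)
    (C E : Subgroup H) (T : Sylow 2 H) (t : H) (hC : IsCyclic C)
    (hCT : C ≤ (T : Subgroup H)) (htT : t ∈ (T : Subgroup H)) (hET : E ≤ (T : Subgroup H))
    (hT : Nat.card (T : Subgroup H) = 2 * Nat.card C)
    (ht : t * t = 1) (htC : t ∉ C) (hinv : ∀ c ∈ C, t * c * t⁻¹ = c⁻¹)
    (hE : E.Normal) (hE4 : Nat.card E = 4) (hE2 : ∀ x ∈ E, x * x = 1)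
    (a : H) (ha : Odd (orderOf a)) (ha3 : ¬ 3 ∣ orderOf a) : a ∈ oc H := by
  have hcomm : ∀ a ∈ C, ∀ b ∈ C, a * b = b * a := by
    intro a ha b hb
    have := (IsCyclic.commGroup (α := C)).mul_comm ⟨a, ha⟩ ⟨b, hb⟩
    exact congrArg Subtype.val this
  have hmem : ∀ x : H, x ∈ Subgroup.centralizer (E : Set H) ↔ ∀ a ∈ E, x * a = a * x := by
    intro x
    rw [Subgroup.mem_centralizer_iff]
    exact ⟨fun h a ha => (h a ha).symm, fun h a ha => (h a ha).symm⟩
  have hKn : (Subgroup.centralizer (E : Set H)).Normal := by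
    refine ⟨fun x hx g => ?_⟩
    rw [hmem] at hx ⊢
    intro a ha
    have h1 := hx (g⁻¹ * a * g) (by simpa using hE.conj_mem a ha g⁻¹)
    calc g * x * g⁻¹ * a = g * (x * (g⁻¹ * a * g)) * g⁻¹ := by group
      _ = g * ((g⁻¹ * a * g) * x) * g⁻¹ := by rw [h1]
      _ = a * (g * x * g⁻¹) := by group
  set K := Subgroup.centralizer (E : Set H) with hK
  have hEcomm : ∀ x ∈ E, ∀ y ∈ E, x * y = y * x := by
    intro x hx y hy
    have h1 := hE2 _ (E.mul_mem hx hy)
    have h2 : x * y = (x * y)⁻¹ := (inv_eq_of_mul_eq_one_right h1).symm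
    rw [h2, mul_inv_rev, inv_eq_of_mul_eq_one_right (hE2 x hx),
      inv_eq_of_mul_eq_one_right (hE2 y hy)]
  have hEK : E ≤ K := fun x hx => (hmem x).mpr fun y hy => hEcomm x hx y hy
  -- an element of `E` outside `C`
  obtain ⟨u, huE, huC⟩ : ∃ u ∈ E, u ∉ C := by
    by_contra hcon
    push Not at hcon
    have h1 : IsCyclic E := by
      have : Function.Injective (Subgroup.inclusion (show E ≤ C from hcon)) :=
        Subgroup.inclusion_injective _
      exact isCyclic_of_injective _ this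
    have h2 := M2_exp E h1 hE2
    rw [hE4] at h2
    exact absurd h2 (by norm_num)
  obtain ⟨hidx, hprod⟩ := M2_index C T hCT hT
  have hut : u * t ∈ C := hprod u (hET huE) t htT huC htC
  have hinv2 : ∀ c ∈ C ⊓ K, c * c = 1 := by
    rintro c ⟨hc, hcK⟩
    have h1 : c * u = u * c := (hmem c).mp hcK u huE
    have h2 : u = (u * t) * t := by rw [mul_assoc, ht, mul_one]
    have h3 : u * c = c⁻¹ * u := by
      calc u * c = (u * t) * (t * c * t⁻¹) * t := by
            rw [show t⁻¹ = t from inv_eq_of_mul_eq_one_right ht]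
            calc u * c = u * (t * t) * c * (t * t) := by rw [ht, mul_one, mul_one]
              _ = _ := by simp only [mul_assoc]
        _ = (u * t) * c⁻¹ * t := by rw [hinv c hc]
        _ = c⁻¹ * (u * t) * t := by rw [hcomm _ hut _ (C.inv_mem hc)]
        _ = c⁻¹ * u := by rw [mul_assoc, ← h2]
    rw [← h1] at h3
    have h4 := mul_right_cancel h3
    rw [← inv_eq_iff_mul_eq_one]
    exact h4.symm
  have hCK : Nat.card (C ⊓ K : Subgroup H) ∣ 2 := by
    apply M2_exp _ ?_ hinv2
    exact isCyclic_of_injective (Subgroup.inclusion (inf_le_left : C ⊓ K ≤ C))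
      (Subgroup.inclusion_injective _)
  have hTK : Nat.card ((T : Subgroup H) ⊓ K : Subgroup H) ≤ 4 := by
    have h1 : C.relIndex ((T : Subgroup H) ⊓ K) ≤ C.relIndex (T : Subgroup H) :=
      Subgroup.relIndex_le_of_le_right inf_le_left (by
        rw [Subgroup.relIndex, hidx]; norm_num)
    have h2 : C.relIndex (T : Subgroup H) = 2 := hidx
    rw [h2] at h1
    have h3 := Subgroup.card_mul_index (C.subgroupOf ((T : Subgroup H) ⊓ K))
    have h4 : Nat.card (C.subgroupOf ((T : Subgroup H) ⊓ K)) ≤ 2 := by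
      have h5 : Nat.card (C.subgroupOf ((T : Subgroup H) ⊓ K)) =
          Nat.card (C ⊓ K : Subgroup H) := by
        apply Nat.card_congr
        refine ⟨fun x => ⟨(x.1 : H), Subgroup.mem_subgroupOf.mp x.2, x.1.2.2⟩,
          fun x => ⟨⟨x.1, hCT x.2.1, x.2.2⟩, Subgroup.mem_subgroupOf.mpr x.2.1⟩, ?_, ?_⟩
        · intro x; rfl
        · intro x; rfl
      rw [h5]
      exact Nat.le_of_dvd (by norm_num) hCK
    rw [← h3]
    calc _ ≤ 2 * 2 := Nat.mul_le_mul h4 h1
      _ = 4 := by norm_num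
  -- Sylow of K
  have hEp : IsPGroup 2 (E.subgroupOf K) := by
    rintro ⟨x, hx⟩
    refine ⟨1, ?_⟩
    ext
    change (x : H) ^ (2 ^ 1) = 1
    rw [pow_one, pow_two]
    exact hE2 _ (Subgroup.mem_subgroupOf.mp hx)
  obtain ⟨R, hR⟩ := hEp.exists_le_sylow
  have hRle : Nat.card R ≤ 4 := by
    have h1 : IsPGroup 2 ((R : Subgroup K).map K.subtype) := R.2.map _
    obtain ⟨T1, hT1⟩ := h1.exists_le_sylow
    obtain ⟨g, hg⟩ := MulAction.exists_smul_eq H T1 T
    have h2 : ((R : Subgroup K).map K.subtype).map (MulAut.conj g).toMonoidHom ≤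
        (T : Subgroup H) ⊓ K := by
      rintro _ ⟨x, hx, rfl⟩
      refine ⟨?_, ?_⟩
      · rw [← hg]
        have h3 := Subgroup.smul_mem_pointwise_smul x (MulAut.conj g) (T1 : Subgroup H) (hT1 hx)
        exact h3
      · obtain ⟨y, -, rfl⟩ := hx
        exact hKn.conj_mem _ y.2 g
    have h3 : Nat.card (((R : Subgroup K).map K.subtype).map (MulAut.conj g).toMonoidHom) =
        Nat.card R := by
      rw [Subgroup.card_map_of_injective (MulAut.conj g).injective,
        Subgroup.card_map_of_injective K.subtype_injective]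
    rw [← h3]
    exact (Subgroup.card_le_of_le h2).trans hTK
  have hcE : Nat.card (E.subgroupOf K) = 4 := by
    rw [← hE4]
    exact Nat.card_congr (Subgroup.subgroupOfEquivOfLe hEK).toEquiv
  have hRE : E.subgroupOf K = (R : Subgroup K) :=
    Subgroup.eq_of_le_of_card_ge hR (by rw [hcE]; exact hRle)
  have hR4 : Nat.card R = 4 := by
    rw [← hcE, hRE]
  obtain ⟨N, hN1, hN2⟩ := hTB K 2 R (by
    intro g _ s hs
    rw [← hRE] at hs
    ext
    exact (hmem g).mp g.2 s (Subgroup.mem_subgroupOf.mp hs))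
  have hNodd : Odd (Nat.card N) := by
    have h1 := Subgroup.card_mul_index N
    have h2 := Subgroup.card_mul_index (R : Subgroup K)
    rw [hN2, ← h2, mul_comm] at h1
    have h3 : Nat.card N = (R : Subgroup K).index := Nat.eq_of_mul_eq_mul_left Nat.card_pos h1
    rw [h3, ← Nat.not_even_iff_odd, even_iff_two_dvd]
    exact R.not_dvd_index
  rw [hR4] at hN2
  obtain ⟨hu1, hu2, -, hu4⟩ := M2_up K N hNodd (c := 2) (by rw [hN2]; norm_num)
  apply (hOC H).2.2.1 _ hu1 hu2
  rw [hu4]
  refine ⟨?_, ha⟩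
  -- `a` centralises `E`
  have hperm : orderOf ((MulAut.toPerm E) (MulAut.conjNormal a)) ∣ 24 := by
    have h1 : Nat.card (Equiv.Perm E) = 24 := by
      rw [Nat.card_perm, hE4]; rfl
    rw [← h1]
    exact orderOf_dvd_natCard _
  have hdvd : orderOf ((MulAut.toPerm E) (MulAut.conjNormal a)) ∣ orderOf a :=
    orderOf_map_dvd ((MulAut.toPerm E).comp (MulAut.conjNormal (H := E))) a
  have hcop : Nat.Coprime 24 (orderOf a) := by
    have h2 : Nat.Coprime 2 (orderOf a) := Nat.coprime_two_left.mpr ha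
    have h3 : Nat.Coprime 3 (orderOf a) := (Nat.Prime.coprime_iff_not_dvd Nat.prime_three).mpr ha3
    have : (24 : ℕ) = 2 ^ 3 * 3 := by norm_num
    rw [this]
    exact Nat.Coprime.mul_left (Nat.Coprime.pow_left 3 h2) h3
  have hone := orderOf_eq_one_iff.mp (Nat.eq_one_of_dvd_coprimes hcop hperm hdvd)
  rw [hmem]
  intro x hx
  have h5 : (MulAut.toPerm E) (MulAut.conjNormal a) ⟨x, hx⟩ = ⟨x, hx⟩ := by
    rw [hone]; rfl
  have h6 : a * x * a⁻¹ = x := congrArg Subtype.val h5
  rw [mul_inv_eq_iff_eq_mul] at h6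
  exact h6

end Pool.Agent.helper53.AU
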