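import Pool.Agent.helper54.AU.M2d

/-!
# Project au, module M2, part e: the core argument
-/

namespace Pool.Agent.helper53.AU

open scoped Classical

theorem M2_core {H : Type} [Group H] [Finite H] (hCM : CM_stmt) (hTC : TC_stmt) (hTZ : TZ_stmt)
    (hTB : TB_stmt) (hDC : DC_stmt) (hMN : MN_stmt) (hOC : OC_stmt) (hAB : AB_stmt)
    (B : Subgroup H) (t : H) (s : ℕ) (hBc : IsCyclic B) (h3 : ¬ 3 ∣ Nat.card B)
    (h2 : Even (Nat.card B)) (hs : Nat.Coprime s (2 * Nat.card B))
    (hH : Nat.card H ∣ 2 * Nat.card B * s) (ht : DihW B t)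
    (hN : ∀ g : H, ∀ a ∈ oc H ⊓ oddPart B, g * a * g⁻¹ ∈ oc H ⊓ oddPart B)
    (hC : ∀ x ∈ oc H, (∀ a ∈ oc H ⊓ oddPart B, x * a = a * x) → x ∈ oddPart B) :
    (∀ g : H, ∀ a ∈ oddPart B, g * a * g⁻¹ ∈ oddPart B) ∨
    ∃ E : Subgroup H, E.Normal ∧ NASimple E ∧ Even (Nat.card E) := by
  obtain ⟨ab1, ab2, ab3, ab4, ⟨n, ab5⟩, ab6, ab7, -, -, -⟩ := hAB H B hBc
  have hcommB : ∀ a ∈ B, ∀ b ∈ B, a * b = b * a := by
    intro a ha b hb
    have := (IsCyclic.commGroup (α := B)).mul_comm ⟨a, ha⟩ ⟨b, hb⟩
    exact congrArg Subtype.val this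
  have hCB : twoPart B ≤ B := fun c hc => ((ab2 c).mp hc).1
  have hOB : oddPart B ≤ B := fun c hc => ((ab1 c).mp hc).1
  set A' := oc H ⊓ oddPart B with hA'
  have hA'B : A' ≤ B := inf_le_right.trans hOB
  have hA'c : IsCyclic A' :=
    isCyclic_of_injective (Subgroup.inclusion hA'B) (Subgroup.inclusion_injective _)
  have hpC : IsPGroup 2 (twoPart B) := IsPGroup.of_card ab5
  have hsodd : Odd s := Nat.coprime_two_right.mp (Nat.Coprime.coprime_mul_right_right hs)
  have hkodd : Odd (Nat.card (oddPart B) * s) := ab4.mul hsodd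
  have hH' : Nat.card H ∣ 2 * Nat.card (twoPart B) * (Nat.card (oddPart B) * s) := by
    refine hH.trans (dvd_of_eq ?_)
    rw [← ab3]; ring
  have hinv : ∀ c ∈ twoPart B, t * c * t⁻¹ = c⁻¹ := fun c hc =>
    ht.2.2 c ((ab2 c).mp hc).1 ((ab2 c).mp hc).2
  by_cases hcase : ∃ x : H, IsInv x ∧ ∃ a ∈ A', x * a ≠ a * x
  · left
    obtain ⟨x, hx, hxa⟩ := hcase
    exact M2_comp hOC hAB B hBc hN (M2_case1 hTC hCM A' (twoPart B) hA'c hN ab7 hpC
      (fun c hc a ha => hcommB c (hCB hc) a (hA'B ha)) _ hkodd hH' x hx.1 hxa)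
  · push Not at hcase
    set J := Subgroup.closure {x : H | IsInv x} with hJ
    have hmem : ∀ x : H, x ∈ Subgroup.centralizer (A' : Set H) ↔ ∀ a ∈ A', x * a = a * x := by
      intro x
      rw [Subgroup.mem_centralizer_iff]
      exact ⟨fun h a ha => (h a ha).symm, fun h a ha => (h a ha).symm⟩
    have hJZ : J ≤ Subgroup.centralizer (A' : Set H) := by
      rw [hJ, Subgroup.closure_le]
      intro x hx
      exact (hmem x).mpr (hcase x hx)
    have hJA : J ⊓ A' = ⊥ := by
      rw [Subgroup.eq_bot_iff_forall]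
      rintro z ⟨hzJ, hzA⟩
      by_contra hz1
      have ho : orderOf z ≠ 1 := fun h => hz1 (orderOf_eq_one_iff.mp h)
      obtain ⟨r, hr, hrz⟩ := Nat.exists_prime_and_dvd ho
      have hzr : orderOf (z ^ (orderOf z / r)) = r := by
        rw [orderOf_pow_orderOf_div (orderOf_pos z).ne' hrz]
      have hzo : Odd (orderOf z) := ((ab1 z).mp hzA.2).2
      exact M2_transfer hTZ B A' hBc hA'B hcase s hs hH (z ^ (orderOf z / r))
        (by rw [hzr]; exact hr) (by rw [hzr]; exact Odd.of_dvd_nat hzo hrz)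
        (Subgroup.pow_mem _ hzJ _) (Subgroup.pow_mem _ hzA _)
    have hJO : J ⊓ oc H = ⊥ := by
      rw [Subgroup.eq_bot_iff_forall]
      rintro z ⟨hzJ, hzO⟩
      have h1 : z ∈ oddPart B := hC z hzO ((hmem z).mp (hJZ hzJ))
      have h2 : z ∈ J ⊓ A' := ⟨hzJ, hzO, h1⟩
      rw [hJA] at h2
      exact h2
    have hJn : J.Normal := by
      refine ⟨fun x hx g => ?_⟩
      have h1 : J ≤ J.comap (MulAut.conj g).toMonoidHom := by
        conv_lhs => rw [hJ]
        rw [Subgroup.closure_le]
        intro y hy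
        change g * y * g⁻¹ ∈ J
        apply Subgroup.subset_closure
        refine ⟨?_, ?_⟩
        · have := hy.1
          calc g * y * g⁻¹ * (g * y * g⁻¹) = g * (y * y) * g⁻¹ := by group
            _ = 1 := by rw [this]; simp
        · intro h
          apply hy.2
          have : y = g⁻¹ * (g * y * g⁻¹) * g := by group
          rw [this, h]; simp
      exact h1 hx
    have ht1 : IsInv t := ⟨ht.1, fun h => ht.2.1 (h ▸ B.one_mem)⟩
    have hJne : J ≠ ⊥ := by
      intro h
      have h1 : t ∈ J := Subgroup.subset_closure ht1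
      rw [h] at h1
      exact ht1.2 h1
    obtain ⟨E, hE⟩ := (Set.toFinite {N : Subgroup H | N.Normal ∧ N ≠ ⊥ ∧ N ≤ J}).exists_minimal
      ⟨J, hJn, hJne, le_refl _⟩
    obtain ⟨⟨hEn, hEne, hEJ⟩, hEmin⟩ := hE
    have hEeven : Even (Nat.card E) := by
      by_contra hodd
      rw [Nat.not_even_iff_odd] at hodd
      have h1 := (hOC H).2.2.1 E hEn hodd
      apply hEne
      rw [eq_bot_iff, ← hJO]
      exact le_inf hEJ h1
    have hEmin' : ∀ N : Subgroup H, N.Normal → N ≤ E → N = ⊥ ∨ N = E := by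
      intro N hNn hNE
      by_cases hN0 : N = ⊥
      · exact Or.inl hN0
      · right
        exact le_antisymm hNE (hEmin ⟨hNn, hN0, hNE.trans hEJ⟩ hNE)
    -- Sylow subgroups
    have hSyl : ∀ S : Sylow 2 H, Nat.card (S : Subgroup H) ∣ 2 * Nat.card (twoPart B) := by
      intro S
      apply M2_dvd (IsPGroup.iff_card.mp S.2) hkodd
      exact (Subgroup.card_subgroup_dvd_card _).trans hH'
    obtain ⟨S, hS⟩ := hpC.exists_le_sylow
    rcases hMN H S (twoPart B) E hS ab7
      (Nat.le_of_dvd (Nat.mul_pos (by norm_num) Nat.card_pos) (hSyl S)) hEn hEne hEmin' hEeven with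
      ⟨hE2, hE4⟩ | hsimp
    · left
      have hEp : IsPGroup 2 E := by
        rintro ⟨x, hx⟩
        refine ⟨1, ?_⟩
        ext
        change (x : H) ^ (2 ^ 1) = 1
        rw [pow_one, pow_two]
        exact hE2 _ hx
      have htp : IsPGroup 2 (Subgroup.zpowers t) := by
        apply IsPGroup.of_card (n := 1)
        rw [Nat.card_zpowers, pow_one]
        exact orderOf_eq_prime_iff.mpr ⟨by rw [pow_two]; exact ht1.1, ht1.2⟩
      have htn : Subgroup.zpowers t ≤ Subgroup.normalizer (twoPart B : Set H) := by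
        rw [Subgroup.zpowers_le, Subgroup.mem_normalizer_iff]
        intro c
        constructor
        · intro hc
          change t * c * t⁻¹ ∈ twoPart B
          rw [hinv c hc]
          exact (twoPart B).inv_mem hc
        · intro hc
          have h1 := hinv _ hc
          have h2 : t⁻¹ = t := inv_eq_of_mul_eq_one_right ht1.1
          have h3 : t * (t * c * t⁻¹) * t⁻¹ = c := by
            rw [h2]
            calc t * (t * c * t) * t = (t * t) * c * (t * t) := by simp only [mul_assoc]
              _ = c := by rw [ht1.1, one_mul, mul_one]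
          rw [h3] at h1
          change c ∈ twoPart B
          rw [h1]
          exact (twoPart B).inv_mem hc
      have hD : IsPGroup 2 (Subgroup.zpowers t ⊔ twoPart B : Subgroup H) :=
        IsPGroup.to_sup_of_normal_right' htp hpC htn
      have hD' : IsPGroup 2 ((Subgroup.zpowers t ⊔ twoPart B) ⊔ E : Subgroup H) :=
        IsPGroup.to_sup_of_normal_right hD hEp
      obtain ⟨T, hT⟩ := hD'.exists_le_sylow
      have hCT : twoPart B ≤ (T : Subgroup H) :=
        (le_sup_right.trans le_sup_left).trans hT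
      have htT : t ∈ (T : Subgroup H) :=
        hT ((le_sup_left (b := E)) ((le_sup_left (b := twoPart B)) (Subgroup.mem_zpowers t)))
      have hET : E ≤ (T : Subgroup H) := le_sup_right.trans hT
      have htC : t ∉ twoPart B := fun h => ht.2.1 (hCB h)
      have hTcard : Nat.card (T : Subgroup H) = 2 * Nat.card (twoPart B) := by
        obtain ⟨j, hj⟩ := Subgroup.card_dvd_of_le hCT
        have h1 := hSyl T
        rw [hj, mul_comm 2] at h1
        have h2 : j ∣ 2 := Nat.dvd_of_mul_dvd_mul_left Nat.card_pos h1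
        rcases (Nat.dvd_prime Nat.prime_two).mp h2 with h | h
        · exfalso
          rw [h, mul_one] at hj
          have h3 : twoPart B = (T : Subgroup H) := Subgroup.eq_of_le_of_card_ge hCT hj.le
          rw [← h3] at htT
          exact htC htT
        · rw [hj, h, mul_comm]
      have hCeven : 2 ∣ Nat.card (twoPart B) := by
        rw [← ab3, Nat.even_mul] at h2
        rcases h2 with h | h
        · exact absurd h (Nat.not_even_iff_odd.mpr ab4)
        · exact h.two_dvd
      obtain ⟨τ, hτ⟩ := exists_prime_orderOf_dvd_card' (G := twoPart B) 2 hCeven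
      have hτi : IsInv (τ : H) := by
        rw [← Subgroup.orderOf_coe, orderOf_eq_prime_iff] at hτ
        exact ⟨by rw [← pow_two]; exact hτ.1, hτ.2⟩
      have hEpos : 0 < Nat.card E := Nat.card_pos
      have hE24 : Nat.card E = 2 ∨ Nat.card E = 4 := by
        obtain ⟨l, hl⟩ := hEeven
        omega
      rcases hE24 with hE' | hE'
      · exact M2_comp hOC hAB B hBc hN (M2_two hDC (twoPart B) E T t τ ab7 ab5 hCT htT hET hTcard
          ht.1 htC hinv τ.2 hτi hEn hE')
      · intro g a ha
        have hbo : ∀ b ∈ oddPart B, b ∈ oc H := by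
          intro b hb
          have hb' := (ab1 b).mp hb
          apply M2_four hTB hOC (twoPart B) E T t ab7 hCT htT hET hTcard ht.1 htC hinv hEn hE' hE2
            b hb'.2
          intro h
          apply h3
          refine h.trans ?_
          have := orderOf_dvd_natCard (⟨b, hb'.1⟩ : B)
          rwa [Subgroup.orderOf_mk] at this
        exact (hN g a ⟨hbo a ha, ha⟩).2
    · exact Or.inr ⟨E, hEn, hsimp, hEeven⟩

end Pool.Agent.helper53.AU
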